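import Pool.Agent.HCV.Chk3

set_option autoImplicit false

namespace HCV.Q6

/-- the six vertices of the hexagon, the first one repeated -/
def L0 : ℕ := 648663406980239434036718146867912460552739323356739867851333627641927461661271485797714267316942974802758277089498154112596189123720998589358351931934208270309986530335933902410039118255710056995732309017378096582721044602719492686840146245408714705253648049439026213319647641321525529260411212140299928341540217266976187661309262600905213842604087776190027644509705043894804329363018959704951794603143682039515063288731692882729104765848390247764782295526977824945109329483865588423982724238585529041920767709010337399528517272122769928828399736951176088375570363823573262609165501568860657725428998012008393658456538499866111517297894970435643738867580057041756176829076974905985230978952825167640087794490238769660159989262616986782833803999636075034901426754151702876970545800294444735623202787989814026071405984776360961560129231767026326880126849996723978352977469634886831232249218683604219183576646280823076479158816680157714206566387527505446232641841892020112168878737801452153504859025741685967807509320592822655617249345598600937519992872303321925321421646097397510371409361096879597400279510684099452597696577776284844599307096272390922932963309827139756109681310529281219383818675238164246848074075574601683431346667520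

end HCV.Q6
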